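import Pool.Agent.Helper47.TK.StK

set_option autoImplicit false

namespace Pool.Agent.Helper99.TK

open Pool.Agent.Helper95.TT Pool.Agent.Helper24.TF Pool.Agent.Helper47.TK
open scoped Classical

theorem ringChar_ne_two {K : Type} [Field K] (h2 : (2 : K) ≠ 0) : ringChar K ≠ 2 := by
  intro h
  apply h2
  have := (ringChar.spec K 2).2 (by rw [h])
  exact_mod_cast this

theorem sum_sq {K : Type} [Field K] [Fintype K] (h2 : (2 : K) ≠ 0) (H : K → ℝ) :
    ∑ x : K, H (x ^ 2) = ∑ t : K, ((quadraticChar K t : ℤ) + 1 : ℝ) * H t := by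
  have hF := ringChar_ne_two h2
  rw [← Finset.sum_fiberwise_of_maps_to (s := Finset.univ) (t := Finset.univ) (g := fun x : K => x ^ 2)
    (fun _ _ => Finset.mem_univ _)]
  apply Finset.sum_congr rfl
  intro t _
  have h1 : ∑ x ∈ Finset.univ.filter (fun x : K => x ^ 2 = t), H (x ^ 2) =
      ∑ x ∈ Finset.univ.filter (fun x : K => x ^ 2 = t), H t := by
    apply Finset.sum_congr rfl
    intro x hx
    rw [Finset.mem_filter] at hx
    rw [hx.2]
  rw [h1, Finset.sum_const, nsmul_eq_mul]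
  congr 1
  have h3 := quadraticChar_card_sqrts hF t
  have h4 : {x : K | x ^ 2 = t}.toFinset = Finset.univ.filter (fun x : K => x ^ 2 = t) := by
    ext x
    simp
  rw [h4] at h3
  exact_mod_cast h3

theorem qchar_neg {K : Type} [Field K] [Fintype K] (ν : K) (hν : ¬ IsSquare ν) : quadraticChar K ν = -1 :=
  quadraticChar_neg_one_iff_not_isSquare.2 hν

theorem sum_nsq {K : Type} [Field K] [Fintype K] (h2 : (2 : K) ≠ 0) (ν : K) (hν : ¬ IsSquare ν) (H : K → ℝ) :
    ∑ x : K, H (x ^ 2) + ∑ b : K, H (ν * b ^ 2) = 2 * ∑ t : K, H t := by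
  have hν0 : ν ≠ 0 := by
    rintro rfl
    exact hν IsSquare.zero
  rw [sum_sq h2 H, sum_sq h2 (fun t => H (ν * t))]
  have h3 : ∑ t : K, ((quadraticChar K t : ℤ) + 1 : ℝ) * H (ν * t) =
      ∑ t : K, (- (quadraticChar K t : ℤ) + 1 : ℝ) * H t := by
    rw [← Equiv.sum_comp (Equiv.mulLeft₀ ν hν0) (fun t => (- (quadraticChar K t : ℤ) + 1 : ℝ) * H t)]
    apply Finset.sum_congr rfl
    intro t _
    change _ = (- ((quadraticChar K (ν * t) : ℤ) : ℝ) + 1) * H (ν * t)
    rw [map_mul, qchar_neg ν hν]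
    push_cast
    ring
  rw [h3, ← Finset.sum_add_distrib, Finset.mul_sum]
  apply Finset.sum_congr rfl
  intro t _
  ring

theorem hK1 : StK1 := by
  intro K _ _ ν h2 hν g
  have e1 : ∑ u : K, ∑ w : K, g (u + w) (u * w) = ∑ s : K, ∑ x : K, g s ((s / 2) ^ 2 - x ^ 2) := by
    have : ∀ u : K, ∑ w : K, g (u + w) (u * w) = ∑ s : K, g s (u * (s - u)) := by
      intro u
      rw [← Equiv.sum_comp (Equiv.subRight u) (fun w => g (u + w) (u * w))]
      apply Finset.sum_congr rfl
      intro s _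
      simp only [Equiv.subRight_apply, add_sub_cancel]
    rw [Finset.sum_congr rfl (fun u _ => this u), Finset.sum_comm]
    apply Finset.sum_congr rfl
    intro s _
    rw [← Equiv.sum_comp (Equiv.addLeft (s / 2)) (fun u => g s (u * (s - u)))]
    apply Finset.sum_congr rfl
    intro x _
    simp only [Equiv.coe_addLeft]
    congr 1
    field_simp
    ring
  have e2 : ∑ a : K, ∑ b : K, g (2 * a) (a ^ 2 - ν * b ^ 2) =
      ∑ s : K, ∑ b : K, g s ((s / 2) ^ 2 - ν * b ^ 2) := by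
    rw [← Equiv.sum_comp (Equiv.mulLeft₀ (2 : K) h2) (fun s => ∑ b : K, g s ((s / 2) ^ 2 - ν * b ^ 2))]
    apply Finset.sum_congr rfl
    intro a _
    apply Finset.sum_congr rfl
    intro b _
    change _ = g (2 * a) ((2 * a / 2) ^ 2 - ν * b ^ 2)
    rw [mul_div_cancel_left₀ a h2]
  rw [e1, e2, ← Finset.sum_add_distrib, Finset.mul_sum]
  apply Finset.sum_congr rfl
  intro s _
  have e3 := sum_nsq h2 ν hν (fun t => g s ((s / 2) ^ 2 - t))
  rw [e3]
  congr 1
  rw [← Equiv.sum_comp (Equiv.subLeft ((s / 2) ^ 2)) (fun p => g s p)]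
  rfl

end Pool.Agent.Helper99.TK
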