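import Pool.Agent.Helper99.TK.M_K1

set_option autoImplicit false

namespace Pool.Agent.Helper99.TK

open Pool.Agent.Helper95.TT Pool.Agent.Helper24.TF Pool.Agent.Helper47.TK
open scoped Classical

theorem qc_eq {K : Type} [Field K] [Fintype K] (x : K) : qc x = ((quadraticChar K x : ℤ) : ℝ) := by
  unfold qc
  rw [quadraticChar_apply]
  unfold quadraticCharFun
  split_ifs <;> simp

theorem qc_mul {K : Type} [Field K] [Fintype K] (x y : K) : qc (x * y) = qc x * qc y := by
  rw [qc_eq, qc_eq, qc_eq, map_mul]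
  push_cast
  rfl

theorem cnt {A : Type} [Fintype A] (P : A → Prop) :
    (Nat.card {z // P z} : ℝ) = ∑ z : A, if P z then (1 : ℝ) else 0 := by
  rw [Nat.card_eq_fintype_card, Fintype.card_subtype]
  simp

theorem card_sqrt {K : Type} [Field K] [Fintype K] (h2 : (2 : K) ≠ 0) (c : K) :
    (∑ w : K, if w ^ 2 = c then (1 : ℝ) else 0) = 1 + qc c := by
  rw [qc_eq]
  have hF := ringChar_ne_two h2
  have h3 := quadraticChar_card_sqrts hF c
  have h4 : {x : K | x ^ 2 = c}.toFinset = Finset.univ.filter (fun x : K => x ^ 2 = c) := by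
    ext x
    simp
  rw [h4] at h3
  have h5 : (((Finset.univ.filter (fun x : K => x ^ 2 = c)).card : ℤ) : ℝ) =
      (((quadraticChar K) c + 1 : ℤ) : ℝ) := by rw [h3]
  push_cast at h5
  rw [Finset.sum_boole, h5]
  ring

theorem hK3 (hK1 : StK1) (hK2 : StK2) : StK3 := by
  intro K _ _ h2 n α hn hα hA
  obtain ⟨ν, hν⟩ := FiniteField.exists_nonsquare (ringChar_ne_two h2)
  have hA2 := hK2 K ν h2 hν n α hn hα
  have hS := hK1 K ν h2 hν (fun s p => qc (∏ i, (α i ^ 2 - α i * s + p)))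
  set A : ℝ := ∑ x : K, qc (∏ i, (x - α i)) with hAdef
  set A' : ℝ := ∑ a : K, ∑ b : K, qc (∏ i, ((a - α i) ^ 2 - ν * b ^ 2)) with hA'def
  set S : ℝ := ∑ s : K, ∑ p : K, qc (∏ i, (α i ^ 2 - α i * s + p)) with hSdef
  have e1 : ∑ u : K, ∑ w : K, qc (∏ i, (α i ^ 2 - α i * (u + w) + u * w)) = A * A := by
    rw [hAdef, Finset.sum_mul_sum]
    apply Finset.sum_congr rfl
    intro u _
    apply Finset.sum_congr rfl
    intro w _
    rw [← qc_mul, ← Finset.prod_mul_distrib]
    congr 1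
    apply Finset.prod_congr rfl
    intro i _
    ring
  have e2 : ∑ a : K, ∑ b : K, qc (∏ i, (α i ^ 2 - α i * (2 * a) + (a ^ 2 - ν * b ^ 2))) = A' := by
    rw [hA'def]
    apply Finset.sum_congr rfl
    intro u _
    apply Finset.sum_congr rfl
    intro w _
    congr 1
    apply Finset.prod_congr rfl
    intro i _
    ring
  rw [e1, e2] at hS
  have hq1 : (1 : ℝ) ≤ Fintype.card K := by
    exact_mod_cast Fintype.card_pos
  refine ⟨S + A + 1, ?_, ?_⟩
  · have hl : S + A + 1 = ((A + 1) ^ 2 + (A' + 1)) / 2 := by linarith [hS, mul_self_nonneg A, sq A, (show (A + 1) ^ 2 = A * A + 2 * A + 1 by ring)]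
    have hA3 : (A + 1) ^ 2 ≤ (8 * n + 12) ^ 2 * (Fintype.card K : ℝ) := by
      have h5 : (A + 1) ^ 2 = |A + 1| ^ 2 := (sq_abs _).symm
      have h6 : |A + 1| ^ 2 ≤ ((8 * n + 12) * √(Fintype.card K : ℝ)) ^ 2 :=
        pow_le_pow_left₀ (abs_nonneg _) hA 2
      rw [mul_pow, Real.sq_sqrt (by positivity)] at h6
      linarith
    have hA4 : |A' + 1| ≤ (8 * n + 11) * (Fintype.card K : ℝ) + 1 := by
      calc |A' + 1| ≤ |A'| + |(1 : ℝ)| := abs_add_le _ _
        _ ≤ _ := by rw [abs_one]; linarith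
    rw [hl, abs_div, abs_two]
    have h7 : |(A + 1) ^ 2 + (A' + 1)| ≤ (A + 1) ^ 2 + |A' + 1| := by
      calc |(A + 1) ^ 2 + (A' + 1)| ≤ |(A + 1) ^ 2| + |A' + 1| := abs_add_le _ _
        _ = _ := by rw [abs_of_nonneg (sq_nonneg (A + 1))]
    rw [div_le_iff₀ (by norm_num)]
    nlinarith
  · intro d hd
    unfold ptsD
    push_cast
    rw [cnt, cnt, cnt, card_sqrt h2]
    have f1 : (∑ z : K × K × K, if z.2.2 ^ 2 = d * ∏ i, (α i ^ 2 - α i * z.1 + z.2.1) then (1 : ℝ) else 0) =
        (Fintype.card K : ℝ) ^ 2 + qc d * S := by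
      rw [Fintype.sum_prod_type]
      have : ∀ s : K, (∑ y : K × K, if y.2 ^ 2 = d * ∏ i, (α i ^ 2 - α i * s + y.1) then (1 : ℝ) else 0) =
          (Fintype.card K : ℝ) + qc d * ∑ p : K, qc (∏ i, (α i ^ 2 - α i * s + p)) := by
        intro s
        rw [Fintype.sum_prod_type]
        simp only [card_sqrt h2]
        rw [Finset.sum_add_distrib, Finset.mul_sum]
        simp only [qc_mul]
        simp
      rw [Finset.sum_congr rfl (fun s _ => this s), Finset.sum_add_distrib, hSdef, Finset.mul_sum]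
      simp
      ring
    have f2 : (∑ z : K × K, if z.2 ^ 2 = d * ∏ i, (z.1 - α i) then (1 : ℝ) else 0) =
        (Fintype.card K : ℝ) + qc d * A := by
      rw [Fintype.sum_prod_type]
      simp only [card_sqrt h2]
      rw [Finset.sum_add_distrib, hAdef, Finset.mul_sum]
      simp only [qc_mul]
      simp
    rw [f1, f2]
    ring

end Pool.Agent.Helper99.TK
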