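import Pool.Agent.Helper99.TK.M_K3

set_option autoImplicit false

namespace Pool.Agent.Helper99.TK

open NumberField IsDedekindDomain Polynomial
open Pool.Agent.Helper95.TT Pool.Agent.Helper24.TF Pool.Agent.Helper47.TK
open scoped Classical

theorem hK4 (hF3 : StF3) (hK3 : StK3) : StK4 := by
  intro k _ _ v h2v n α hne hn hα
  obtain ⟨-, -, f3, -, -⟩ := hF3 k v h2v
  have hmax : v.asIdeal.IsMaximal := v.isMaximal
  let _ : Field (Kv v) := Ideal.Quotient.field v.asIdeal
  have : Finite (Kv v) := by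
    have := v.ne_bot
    exact Ideal.finiteQuotientOfFreeOfNeBot _ this
  let _ : Fintype (Kv v) := Fintype.ofFinite _
  have hcard : (Fintype.card (Kv v)) = q v := by
    unfold q
    rw [Ideal.absNorm_apply, Submodule.cardQuot_apply, Nat.card_eq_fintype_card]
  have h2 : (2 : Kv v) ≠ 0 := by
    intro h
    apply h2v
    have h3 : (Ideal.Quotient.mk v.asIdeal) 2 = 0 := by rw [← h]; rfl
    exact Ideal.Quotient.eq_zero_iff_mem.1 h3
  have hqc : ∀ x : Kv v, qc x = chF v x := fun x => rfl
  set h : (Kv v)[X] := ∏ i : Fin n, (X - C (α i)) with hh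
  have hmon : h.Monic := monic_prod_of_monic _ _ (fun i _ => monic_X_sub_C _)
  have hdeg : h.natDegree = n := by
    rw [hh, natDegree_prod_of_monic _ _ (fun i _ => monic_X_sub_C _)]
    simp
  have hsq : Squarefree h := (separable_prod_X_sub_C_iff.2 hα).squarefree
  have hev : ∀ x : Kv v, h.eval x = ∏ i, (x - α i) := by
    intro x
    rw [hh, eval_prod]
    simp
  have hpts : (ptsF v h : ℝ) = (Fintype.card (Kv v) : ℝ) + (∑ x : Kv v, qc (∏ i, (x - α i))) + 2 := by
    unfold ptsF
    rw [if_pos (by rw [hdeg]; exact hne)]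
    push_cast
    rw [cnt, cnt, Fintype.sum_prod_type]
    simp only [card_sqrt h2, hmon.leadingCoeff, hev]
    rw [Finset.sum_add_distrib]
    have q1 : qc (1 : Kv v) = 1 := by
      unfold qc
      rw [if_neg one_ne_zero, if_pos IsSquare.one]
    rw [q1]
    simp
    ring
  have h3 := f3 h (by rw [hdeg]; exact hn) hsq
  have h4 : (trF v h : ℝ) = - (∑ x : Kv v, qc (∏ i, (x - α i)) + 1) := by
    unfold trF
    push_cast
    rw [hpts, hcard]
    ring
  rw [h4, abs_neg, hdeg] at h3
  obtain ⟨l, hl1, hl2⟩ := hK3 (Kv v) h2 n α hn hα (by rw [hcard]; exact h3)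
  rw [hcard] at hl1
  refine ⟨l, hl1, fun d hd => ?_⟩
  have h5 := hl2 d hd
  rw [hcard, hqc] at h5
  unfold ptsK
  push_cast
  rw [h5]
  ring

end Pool.Agent.Helper99.TK
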