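import Pool.Agent.Helper52.TK.St

/-!
# Project TK: module TKN (linear bounds of the filtration from finite generation)
-/

set_option autoImplicit false

namespace Pool.Agent.Helper99.TK

open Pool.Agent.Helper52.TK

section

variable {κ : Type}

/-- Laurent polynomials -/
private abbrev LA (κ : Type) : Type := AddMonoidAlgebra ℂ (κ → ℤ)

/-- the big algebra -/
private abbrev BA (κ : Type) : Type := AddMonoidAlgebra (LA κ) (ℕ × ℤ)

/-- the generators with bounded filtration index -/
private def GC (F : ℕ → ℤ → Submodule ℂ (LA κ)) (C : ℕ) : Set (BA κ) :=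
  {b | ∃ (k : ℕ) (l : ℤ) (f : LA κ), f ∈ F k l ∧ |l| ≤ C ∧ b = AddMonoidAlgebra.single (k, -l) f}

private lemma GC_mono (F : ℕ → ℤ → Submodule ℂ (LA κ)) {C C' : ℕ} (h : C ≤ C') :
    GC F C ⊆ GC F C' := by
  rintro b ⟨k, l, f, hf, hl, rfl⟩
  exact ⟨k, l, f, hf, hl.trans (by exact_mod_cast h), rfl⟩

private lemma mem_adjoin_GC (F : ℕ → ℤ → Submodule ℂ (LA κ)) {x : BA κ} (hx : x ∈ rees F) :
    ∃ C : ℕ, x ∈ Algebra.adjoin ℂ (GC F C) := by
  unfold rees at hx
  induction hx using Algebra.adjoin_induction with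
  | mem b hb =>
    obtain ⟨k, l, f, hf, rfl⟩ := hb
    refine ⟨l.natAbs, Algebra.subset_adjoin ⟨k, l, f, hf, ?_, rfl⟩⟩
    rw [Int.natCast_natAbs]
  | algebraMap c => exact ⟨0, Subalgebra.algebraMap_mem _ c⟩
  | add x y _ _ hx hy =>
    obtain ⟨C, h1⟩ := hx
    obtain ⟨C', h2⟩ := hy
    exact ⟨max C C', Subalgebra.add_mem _
      (Algebra.adjoin_mono (GC_mono F (le_max_left _ _)) h1)
      (Algebra.adjoin_mono (GC_mono F (le_max_right _ _)) h2)⟩
  | mul x y _ _ hx hy =>
    obtain ⟨C, h1⟩ := hx
    obtain ⟨C', h2⟩ := hy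
    exact ⟨max C C', Subalgebra.mul_mem _
      (Algebra.adjoin_mono (GC_mono F (le_max_left _ _)) h1)
      (Algebra.adjoin_mono (GC_mono F (le_max_right _ _)) h2)⟩

private lemma exists_GC (F : ℕ → ℤ → Submodule ℂ (LA κ)) (hF : (rees F).FG) :
    ∃ C : ℕ, rees F ≤ Algebra.adjoin ℂ (GC F C) := by
  obtain ⟨t, ht⟩ := hF
  have h1 : ∀ x ∈ t, ∃ C : ℕ, x ∈ Algebra.adjoin ℂ (GC F C) := by
    intro x hx
    apply mem_adjoin_GC
    rw [← ht]
    exact Algebra.subset_adjoin hx
  choose! c hc using h1
  refine ⟨t.sup c, ?_⟩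
  rw [← ht]
  apply Algebra.adjoin_le
  intro x hx
  exact Algebra.adjoin_mono (GC_mono F (Finset.le_sup (f := c) hx)) (hc x hx)

/-- the elements with coefficients in `H` -/
private noncomputable def SS (H : ℕ → ℤ → Submodule ℂ (LA κ)) : Submodule ℂ (BA κ) :=
  Submodule.span ℂ {b | ∃ (k : ℕ) (l : ℤ) (f : LA κ), f ∈ H k l ∧
    b = AddMonoidAlgebra.single (k, -l) f}

private lemma SS_coeff (H : ℕ → ℤ → Submodule ℂ (LA κ)) {x : BA κ} (hx : x ∈ SS H) (k : ℕ)
    (l : ℤ) : x.coeff (k, -l) ∈ H k l := by
  unfold SS at hx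
  induction hx using Submodule.span_induction with
  | mem b hb =>
    obtain ⟨k', l', f, hf, rfl⟩ := hb
    rw [AddMonoidAlgebra.coeff_single, Finsupp.single_apply]
    split_ifs with h
    · have h1 : k' = k := (Prod.ext_iff.1 h).1
      have h2 : -l' = -l := (Prod.ext_iff.1 h).2
      have h3 : l' = l := neg_injective h2
      subst h1
      subst h3
      exact hf
    · exact Submodule.zero_mem _
  | zero =>
    rw [AddMonoidAlgebra.coeff_zero]
    exact Submodule.zero_mem _
  | add x y _ _ hx hy =>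
    rw [AddMonoidAlgebra.coeff_add]
    exact Submodule.add_mem _ hx hy
  | smul c x _ hx =>
    rw [AddMonoidAlgebra.coeff_smul]
    exact Submodule.smul_mem _ c hx

private lemma SS_mul (H : ℕ → ℤ → Submodule ℂ (LA κ))
    (hmul : ∀ k l k' l' f f', f ∈ H k l → f' ∈ H k' l' → f * f' ∈ H (k + k') (l + l'))
    (x y : BA κ) (hx : x ∈ SS H) (hy : y ∈ SS H) : x * y ∈ SS H := by
  unfold SS at hx hy
  induction hx, hy using Submodule.span_induction₂ with
  | mem_mem a b ha hb =>
    obtain ⟨k, l, f, hf, rfl⟩ := ha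
    obtain ⟨k', l', f', hf', rfl⟩ := hb
    rw [AddMonoidAlgebra.single_mul_single]
    refine Submodule.subset_span ⟨k + k', l + l', f * f', hmul _ _ _ _ _ _ hf hf', ?_⟩
    rw [Prod.mk_add_mk, neg_add]
  | zero_left y _ =>
    rw [zero_mul]
    exact Submodule.zero_mem _
  | zero_right x _ =>
    rw [mul_zero]
    exact Submodule.zero_mem _
  | add_left x y z _ _ _ h1 h2 =>
    rw [add_mul]
    exact Submodule.add_mem _ h1 h2
  | add_right x y z _ _ _ h1 h2 =>
    rw [mul_add]
    exact Submodule.add_mem _ h1 h2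
  | smul_left r x y _ _ h =>
    rw [smul_mul_assoc]
    exact Submodule.smul_mem _ r h
  | smul_right r x y _ _ h =>
    rw [mul_smul_comm]
    exact Submodule.smul_mem _ r h

/-- step (2): comparison of filtrations -/
private lemma compare {F H : ℕ → ℤ → Submodule ℂ (LA κ)} {C : ℕ}
    (hC : rees F ≤ Algebra.adjoin ℂ (GC F C))
    (hmul : ∀ k l k' l' f f', f ∈ H k l → f' ∈ H k' l' → f * f' ∈ H (k + k') (l + l'))
    (hone : (1 : LA κ) ∈ H 0 0)
    (hgen : ∀ (k : ℕ) (l : ℤ) (f : LA κ), f ∈ F k l → |l| ≤ C → f ∈ H k l) (k : ℕ) (l : ℤ) :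
    F k l ≤ H k l := by
  intro f hf
  have h1 : (1 : BA κ) ∈ SS H := by
    refine Submodule.subset_span ⟨0, 0, 1, hone, ?_⟩
    rw [neg_zero]
    rfl
  let B : Subalgebra ℂ (BA κ) := (SS H).toSubalgebra h1 (fun x y hx hy => SS_mul H hmul x y hx hy)
  have h2 : Algebra.adjoin ℂ (GC F C) ≤ B := by
    apply Algebra.adjoin_le
    rintro b ⟨k, l, f, hf, hl, rfl⟩
    exact Submodule.subset_span ⟨k, l, f, hgen k l f hf hl, rfl⟩
  have h3 : (AddMonoidAlgebra.single (k, -l) f : BA κ) ∈ SS H :=
    h2 (hC (Algebra.subset_adjoin ⟨k, l, f, hf, rfl⟩))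
  have h4 := SS_coeff H h3 k l
  rw [AddMonoidAlgebra.coeff_single, Finsupp.single_eq_same] at h4
  exact h4

end

/-- MODULE TKN. -/
theorem hTKN : StTKN := by
  intro κ R _ X r F hF
  obtain ⟨C, hC⟩ := exists_GC F hF.fg
  have hanti : ∀ k, Antitone (F k) := fun k => antitone_int_of_succ_le (hF.anti k)
  have hone : (1 : LA κ) ∈ F 0 0 := by
    rw [hF.zero.1 0 le_rfl]
    intro u hu i
    have h1 : u = 0 := by
      by_contra h
      apply hu
      rw [AddMonoidAlgebra.one_def, AddMonoidAlgebra.coeff_single,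
        Finsupp.single_eq_of_ne h]
    rw [h1]
    simp
  refine ⟨C, fun k => ⟨?_, ?_⟩⟩
  · intro l hl
    have key := compare (H := fun k l => if l ≤ ((C * k : ℕ) : ℤ) then F k l else ⊥) hC
      (by
        intro k l k' l' f f' hf hf'
        split_ifs at hf with h1
        · split_ifs at hf' with h2
          · rw [if_pos]
            · exact hF.mul _ _ _ _ _ _ hf hf'
            · push_cast at h1 h2 ⊢
              linarith
          · rw [Submodule.mem_bot] at hf'
            rw [hf', mul_zero]
            exact Submodule.zero_mem _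
        · rw [Submodule.mem_bot] at hf
          rw [hf, zero_mul]
          exact Submodule.zero_mem _)
      (by
        rw [if_pos (by simp)]
        exact hone)
      (by
        intro k l f hf hl
        split_ifs with h1
        · exact hf
        · have h2 := (abs_le.1 hl).2
          rcases Nat.eq_zero_or_pos k with h3 | h3
          · subst h3
            have h4 : 0 < l := by
              simp only [mul_zero, Nat.cast_zero, not_le] at h1
              exact h1
            rw [hF.zero.2 l h4] at hf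
            exact hf
          · exfalso
            apply h1
            have h5 : C ≤ C * k := Nat.le_mul_of_pos_right C h3
            have h6 : (C : ℤ) ≤ ((C * k : ℕ) : ℤ) := by exact_mod_cast h5
            linarith) k l
    rw [if_neg (not_le.2 hl)] at key
    exact le_bot_iff.1 key
  · intro l hl
    have key := fun l => compare (H := fun k l => F k (max l (-((C * k : ℕ) : ℤ)))) hC
      (by
        intro k l k' l' f f' hf hf'
        have h1 := hF.mul _ _ _ _ _ _ hf hf'
        refine hanti (k + k') ?_ h1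
        apply max_le
        · exact add_le_add (le_max_left _ _) (le_max_left _ _)
        · have h2 := le_max_right l (-((C * k : ℕ) : ℤ))
          have h3 := le_max_right l' (-((C * k' : ℕ) : ℤ))
          push_cast at h2 h3 ⊢
          linarith)
      (by
        have h1 : max (0 : ℤ) (-((C * 0 : ℕ) : ℤ)) = 0 := by simp
        rw [h1]
        exact hone)
      (by
        intro k l f hf hl
        have h2 := (abs_le.1 hl).1
        rcases Nat.eq_zero_or_pos k with h3 | h3
        · subst h3
          have h4 : max l (-((C * 0 : ℕ) : ℤ)) = max l 0 := by simp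
          rw [h4]
          rcases le_total 0 l with h5 | h5
          · rw [max_eq_left h5]
            exact hf
          · rw [max_eq_right h5, hF.zero.1 0 le_rfl, ← hF.zero.1 l h5]
            exact hf
        · have h5 : C ≤ C * k := Nat.le_mul_of_pos_right C h3
          have h6 : (C : ℤ) ≤ ((C * k : ℕ) : ℤ) := by exact_mod_cast h5
          rw [max_eq_left (by linarith)]
          exact hf) k l
    apply le_antisymm (hF.le k l)
    obtain ⟨l0, hl0⟩ := hF.exh k
    calc X.sec (r * k) = F k l0 := hl0.symm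
      _ ≤ F k (max l0 (-((C * k : ℕ) : ℤ))) := key l0
      _ ≤ F k l := hanti k (hl.trans (le_max_right _ _))

end Pool.Agent.Helper99.TK
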